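import Pool.Agent.H12.SP.Defs

/-! # RNK: many primes -/

set_option autoImplicit false

namespace Pool.Agent.H12.SP

open Finset

/-- extension of a function on `Fin K` by `0` -/
def pg {K : ℕ} (g : Fin K → ℕ) (l : ℕ) : ℕ := if h : l < K then g ⟨l, h⟩ else 0

/-- the support -/
def Tg {K : ℕ} (g : Fin K → ℕ) : Finset ℕ := (range K).filter fun l => pg g l ≠ 0

theorem pg_fin {K : ℕ} (g : Fin K → ℕ) (i : Fin K) : pg g i = g i := by
  unfold pg
  rw [dif_pos i.2]

/-- weight -/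
noncomputable def wt (d : ℝ) (q : ℕ) : ℝ := if q = 0 then 1 else (q : ℝ) ^ (-(1 + 2 * d))

theorem wt_nonneg (d : ℝ) (q : ℕ) : 0 ≤ wt d q := by
  unfold wt
  split_ifs
  · exact zero_le_one
  · exact Real.rpow_nonneg (Nat.cast_nonneg _) _

theorem prod_Tg {K : ℕ} (g : Fin K → ℕ) :
    ∏ l ∈ Tg g, ((pg g l : ℕ) : ℝ) ^ 2 = ∏ i : Fin K, if g i = 0 then 1 else (g i : ℝ) ^ 2 := by
  unfold Tg
  rw [prod_filter, prod_range]
  refine prod_congr rfl fun i _ => ?_
  rw [pg_fin]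
  by_cases h : g i = 0
  · rw [if_pos h, if_neg (fun h' => h' h)]
  · rw [if_neg h, if_pos h]

theorem prod_wt {K : ℕ} (d : ℝ) (g : Fin K → ℕ) :
    (∏ l ∈ Tg g, ((pg g l : ℕ) : ℝ) ^ 2) ^ (-(1 / 2 + d)) = ∏ i : Fin K, wt d (g i) := by
  rw [prod_Tg, ← Real.finsetProd_rpow]
  · refine prod_congr rfl fun i _ => ?_
    unfold wt
    by_cases h : g i = 0
    · rw [if_pos h, if_pos h, Real.one_rpow]
    · rw [if_neg h, if_neg h, ← Real.rpow_natCast, ← Real.rpow_mul (Nat.cast_nonneg _)]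
      congr 1
      push_cast
      ring
  · intro i _
    split_ifs
    · exact zero_le_one
    · positivity

theorem tail_small {d : ℝ} (hd : 0 < d) {δ : ℝ} (hδ : 0 < δ) : ∃ Y : ℕ, ∀ y : ℕ, Y ≤ y →
    ∀ F : Finset ℕ, (∀ m ∈ F, y < m) → ∑ m ∈ F, (m : ℝ) ^ (-(1 + 2 * d)) ≤ δ := by
  have hs : Summable fun m : ℕ => (m : ℝ) ^ (-(1 + 2 * d)) :=
    Real.summable_nat_rpow.2 (by linarith)
  obtain ⟨s, hs⟩ := summable_iff_vanishing_norm.1 hs δ hδ
  refine ⟨s.sup id, fun y hy F hF => ?_⟩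
  have hdis : Disjoint F s := by
    rw [Finset.disjoint_left]
    intro m hm hms
    have h1 : m ≤ s.sup id := Finset.le_sup (f := id) hms
    exact absurd (hF m hm) (not_lt.2 (h1.trans hy))
  exact (le_abs_self _).trans (hs F hdis).le

theorem ineq_M {d x M : ℝ} (hd : 0 < d) (hd2 : d ≤ 1 / 2) (hx : 1 ≤ x) (hM : 1 ≤ M)
    (h1 : x ^ 2 ≤ M ^ 3) (h2 : M ≤ x) :
    x / M + 1 ≤ 2 * x ^ (2 / 3 + 2 * d / 3) * M ^ (-(1 / 2 + d)) := by
  have hx0 : 0 < x := by linarith
  have hM0 : 0 < M := by linarith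
  have h3 : x ^ (2 / 3 : ℝ) ≤ M := by
    have h4 : (x ^ 2 : ℝ) ^ (1 / 3 : ℝ) ≤ (M ^ 3 : ℝ) ^ (1 / 3 : ℝ) :=
      Real.rpow_le_rpow (by positivity) h1 (by norm_num)
    rw [← Real.rpow_natCast, ← Real.rpow_natCast, ← Real.rpow_mul hx0.le,
      ← Real.rpow_mul hM0.le] at h4
    norm_num at h4
    exact h4
  have h5 : x / M + 1 ≤ 2 * (x / M) := by
    have : 1 ≤ x / M := (one_le_div hM0).2 h2
    linarith
  refine h5.trans ?_
  rw [mul_assoc]
  refine mul_le_mul_of_nonneg_left ?_ (by norm_num)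
  have h6 : x / M = x * (M ^ (-(1 / 2 - d)) * M ^ (-(1 / 2 + d))) := by
    rw [← Real.rpow_add hM0]
    have : -(1 / 2 - d) + -(1 / 2 + d) = -1 := by ring
    rw [this, Real.rpow_neg_one, div_eq_mul_inv]
  rw [h6, ← mul_assoc]
  refine mul_le_mul_of_nonneg_right ?_ (Real.rpow_nonneg hM0.le _)
  have h7 : M ^ (-(1 / 2 - d)) ≤ (x ^ (2 / 3 : ℝ)) ^ (-(1 / 2 - d)) :=
    Real.rpow_le_rpow_of_nonpos (Real.rpow_pos_of_pos hx0 _) h3 (by linarith)
  calc x * M ^ (-(1 / 2 - d)) ≤ x * (x ^ (2 / 3 : ℝ)) ^ (-(1 / 2 - d)) :=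
        mul_le_mul_of_nonneg_left h7 hx0.le
    _ = x ^ (2 / 3 + 2 * d / 3) := by
        rw [← Real.rpow_mul hx0.le]
        nth_rewrite 1 [← Real.rpow_one x]
        rw [← Real.rpow_add hx0]
        congr 1
        ring

theorem pf_rnk (hCNT : T_CNT) : T_RNK := by
  classical
  intro ε hε
  set d : ℝ := min ε 1 / 2 with hd_def
  have hd : 0 < d := by positivity
  have hd2 : d ≤ 1 / 2 := by
    have := min_le_right ε 1
    rw [hd_def]; linarith
  have hdε : 2 * d ≤ ε := by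
    have := min_le_left ε 1
    rw [hd_def]; linarith
  obtain ⟨Y, hY⟩ := tail_small hd (half_pos hd)
  refine ⟨max (2 * Real.exp (d / 2)) ((2 : ℝ) ^ (100 * Y) + 1), fun x hx A hA => ?_⟩
  have hxR : (1 : ℝ) ≤ x := by exact_mod_cast hx
  have hx0 : (0 : ℝ) < x := by linarith
  by_cases hxY : x < 2 ^ (100 * Y)
  · have h1 : A ⊆ range (x + 1) := fun n hn => mem_range.2 (Nat.lt_succ_of_le (hA n hn).1)
    have h2 : (A.card : ℝ) ≤ x + 1 := by
      have := card_le_card h1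
      rw [card_range] at this
      exact_mod_cast this
    have h3 : (x : ℝ) ≤ (2 : ℝ) ^ (100 * Y) := by exact_mod_cast hxY.le
    have h4 : (1 : ℝ) ≤ (x : ℝ) ^ (2 / 3 + ε) := Real.one_le_rpow hxR (by positivity)
    have h5 : (2 : ℝ) ^ (100 * Y) + 1 ≤ max (2 * Real.exp (d / 2)) ((2 : ℝ) ^ (100 * Y) + 1) :=
      le_max_right _ _
    calc (A.card : ℝ) ≤ (2 : ℝ) ^ (100 * Y) + 1 := by linarith
      _ ≤ max (2 * Real.exp (d / 2)) ((2 : ℝ) ^ (100 * Y) + 1) * 1 := by rw [mul_one]; exact h5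
      _ ≤ _ := mul_le_mul_of_nonneg_left h4 (by positivity)
  · have hyy : Y ≤ yy x := by
      unfold yy
      rw [Nat.le_div_iff_mul_le (by norm_num), mul_comm]
      exact Nat.le_log_of_pow_le (by norm_num) (not_lt.1 hxY)
    set K : ℕ := Nat.log 2 x + 1 with hK
    let P : Finset ℕ := (Icc (yy x + 1) x).filter Nat.Prime
    let Q : Finset ℕ := insert 0 P
    have h0P : (0 : ℕ) ∉ P := fun h => absurd (mem_filter.1 h).2 (by decide)
    let G : Finset (Fin K → ℕ) := (Fintype.piFinset fun _ : Fin K => Q).filter fun g =>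
      (∀ l ∈ Tg g, ∀ l' ∈ Tg g, pg g l = pg g l' → l = l') ∧
        x ^ 2 ≤ (∏ l ∈ Tg g, pg g l ^ 2) ^ 3 ∧ ∏ l ∈ Tg g, pg g l ^ 2 ≤ x
    let Ag : (Fin K → ℕ) → Finset ℕ := fun g => A.filter fun n => n ≤ x ∧ Hit (Tg g) (pg g) n
    have hTgP : ∀ g : Fin K → ℕ, (∀ i, g i ∈ Q) → ∀ l ∈ Tg g, pg g l ∈ P := by
      intro g hg l hl
      obtain ⟨h1, h2⟩ := mem_filter.1 hl
      have h3 : pg g l = g ⟨l, mem_range.1 h1⟩ := by
        unfold pg; rw [dif_pos (mem_range.1 h1)]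
      rw [h3] at h2 ⊢
      rcases mem_insert.1 (hg ⟨l, mem_range.1 h1⟩) with h | h
      · exact absurd h h2
      · exact h
    have hcover : A ⊆ G.biUnion Ag := by
      intro n hn
      obtain ⟨hnx, T, p, hp, hinj, hhit, hM1, hM2⟩ := hA n hn
      have hTK : ∀ l ∈ T, l < K := by
        intro l hl
        have h1 : 2 ^ l < n := (hhit l hl).1
        have h2 : l ≤ Nat.log 2 x := Nat.le_log_of_pow_le (by norm_num) (h1.le.trans hnx)
        omega
      let g : Fin K → ℕ := fun i => if (i : ℕ) ∈ T then p i else 0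
      have hpgT : ∀ l ∈ T, pg g l = p l := by
        intro l hl
        unfold pg
        rw [dif_pos (hTK l hl)]
        show (if l ∈ T then p l else 0) = p l
        rw [if_pos hl]
      have hpgN : ∀ l, l ∉ T → pg g l = 0 := by
        intro l hl
        unfold pg
        by_cases h : l < K
        · rw [dif_pos h]
          show (if l ∈ T then p l else 0) = 0
          rw [if_neg hl]
        · rw [dif_neg h]
      have hTg : Tg g = T := by
        ext l
        unfold Tg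
        rw [mem_filter, mem_range]
        constructor
        · rintro ⟨_, h2⟩
          by_contra h
          exact h2 (hpgN l h)
        · intro hl
          refine ⟨hTK l hl, ?_⟩
          rw [hpgT l hl]
          exact (hp l hl).1.ne_zero
      have hprod : ∏ l ∈ Tg g, pg g l ^ 2 = ∏ l ∈ T, p l ^ 2 := by
        rw [hTg]
        exact prod_congr rfl fun l hl => by rw [hpgT l hl]
      refine mem_biUnion.2 ⟨g, mem_filter.2 ⟨?_, ?_, ?_, ?_⟩, ?_⟩
      · rw [Fintype.mem_piFinset]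
        intro i
        show (if (i : ℕ) ∈ T then p i else 0) ∈ Q
        split_ifs with h
        · refine mem_insert_of_mem (mem_filter.2 ⟨mem_Icc.2 ⟨(hp _ h).2, ?_⟩, (hp _ h).1⟩)
          have h1 : p i ^ 2 ∣ n - 2 ^ (i : ℕ) := (hhit _ h).2
          have h2 : 0 < n - 2 ^ (i : ℕ) := Nat.sub_pos_of_lt (hhit _ h).1
          have h3 := Nat.le_of_dvd h2 h1
          have h4 : p i ≤ p i ^ 2 := Nat.le_self_pow (by norm_num) _
          have h5 : p i ^ 2 ≤ n := h3.trans (Nat.sub_le _ _)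
          exact h4.trans (h5.trans hnx)
        · exact mem_insert_self _ _
      · rw [hTg]
        intro l hl l' hl' h
        rw [hpgT l hl, hpgT l' hl'] at h
        exact hinj l hl l' hl' h
      · rw [hprod]; exact hM1
      · rw [hprod]; exact hM2
      · refine mem_filter.2 ⟨hn, hnx, ?_⟩
        rw [hTg]
        intro l hl
        rw [hpgT l hl]
        exact hhit l hl
    have hbound : ∀ g ∈ G, ((Ag g).card : ℝ) ≤
        2 * (x : ℝ) ^ (2 / 3 + 2 * d / 3) * ∏ i : Fin K, wt d (g i) := by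
      intro g hg
      obtain ⟨hgQ, hinj, hM1, hM2⟩ := mem_filter.1 hg
      rw [Fintype.mem_piFinset] at hgQ
      have hP : ∀ l ∈ Tg g, (pg g l).Prime := fun l hl => (mem_filter.1 (hTgP g hgQ l hl)).2
      have h1 := hCNT x (Tg g) (pg g) hP hinj (Ag g) fun n hn => (mem_filter.1 hn).2
      refine h1.trans ?_
      rw [← prod_wt]
      have hcast : (∏ l ∈ Tg g, ((pg g l : ℕ) : ℝ) ^ 2) =
          ((∏ l ∈ Tg g, pg g l ^ 2 : ℕ) : ℝ) := by push_cast; rfl
      refine ineq_M hd hd2 hxR ?_ ?_ ?_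
      · rw [hcast]
        have : 0 < ∏ l ∈ Tg g, pg g l ^ 2 := prod_pos fun l hl => pow_pos (hP l hl).pos 2
        exact_mod_cast this
      · rw [hcast]; exact_mod_cast hM1
      · rw [hcast]; exact_mod_cast hM2
    have hsum : (A.card : ℝ) ≤ 2 * (x : ℝ) ^ (2 / 3 + 2 * d / 3) * (∑ q ∈ Q, wt d q) ^ K := by
      calc (A.card : ℝ) ≤ ((G.biUnion Ag).card : ℝ) := by exact_mod_cast card_le_card hcover
        _ ≤ ∑ g ∈ G, ((Ag g).card : ℝ) := by exact_mod_cast card_biUnion_le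
        _ ≤ ∑ g ∈ G, 2 * (x : ℝ) ^ (2 / 3 + 2 * d / 3) * ∏ i : Fin K, wt d (g i) :=
            sum_le_sum hbound
        _ = 2 * (x : ℝ) ^ (2 / 3 + 2 * d / 3) * ∑ g ∈ G, ∏ i : Fin K, wt d (g i) := by
            rw [mul_sum]
        _ ≤ 2 * (x : ℝ) ^ (2 / 3 + 2 * d / 3) *
            ∑ g ∈ Fintype.piFinset fun _ : Fin K => Q, ∏ i : Fin K, wt d (g i) := by
            refine mul_le_mul_of_nonneg_left ?_ (by positivity)
            exact sum_le_sum_of_subset_of_nonneg (filter_subset _ _) fun g _ _ =>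
              prod_nonneg fun i _ => wt_nonneg d _
        _ = _ := by
            rw [← prod_univ_sum, prod_const, card_univ, Fintype.card_fin]
    have hQ : ∑ q ∈ Q, wt d q ≤ 1 + d / 2 := by
      rw [sum_insert h0P]
      have h1 : wt d 0 = 1 := if_pos rfl
      have h2 : ∑ q ∈ P, wt d q = ∑ q ∈ P, (q : ℝ) ^ (-(1 + 2 * d)) := by
        refine sum_congr rfl fun q hq => ?_
        exact if_neg (mem_filter.1 hq).2.ne_zero
      have h3 := hY (yy x) hyy P fun m hm => (mem_Icc.1 (mem_filter.1 hm).1).1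
      rw [h1, h2]
      linarith
    have hQ0 : 0 ≤ ∑ q ∈ Q, wt d q := sum_nonneg fun q _ => wt_nonneg d q
    have hKlog : (K : ℝ) ≤ 2 * Real.log x + 1 := by
      have h1 : ((Nat.log 2 x : ℕ) : ℝ) * Real.log 2 ≤ Real.log x := by
        have h2 : ((2 ^ Nat.log 2 x : ℕ) : ℝ) ≤ x := by
          exact_mod_cast Nat.pow_log_le_self 2 (by omega)
        have h3 := Real.log_le_log (by positivity) h2
        rwa [Nat.cast_pow, Real.log_pow, Nat.cast_ofNat] at h3
      have h4 : (1 / 2 : ℝ) ≤ Real.log 2 := by linarith [Real.log_two_gt_d9]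
      have h5 : ((Nat.log 2 x : ℕ) : ℝ) * (1 / 2) ≤ ((Nat.log 2 x : ℕ) : ℝ) * Real.log 2 :=
        mul_le_mul_of_nonneg_left h4 (Nat.cast_nonneg _)
      rw [hK]
      push_cast
      linarith
    have hpow : (∑ q ∈ Q, wt d q) ^ K ≤ Real.exp (d / 2) * (x : ℝ) ^ d := by
      calc (∑ q ∈ Q, wt d q) ^ K ≤ (1 + d / 2) ^ K := pow_le_pow_left₀ hQ0 hQ K
        _ ≤ (Real.exp (d / 2)) ^ K := by
            refine pow_le_pow_left₀ (by positivity) ?_ K
            have := Real.add_one_le_exp (d / 2)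
            linarith
        _ = Real.exp (K * (d / 2)) := (Real.exp_nat_mul _ _).symm
        _ ≤ Real.exp ((2 * Real.log x + 1) * (d / 2)) := by
            refine Real.exp_le_exp.2 (mul_le_mul_of_nonneg_right hKlog (by positivity))
        _ = Real.exp (d / 2) * (x : ℝ) ^ d := by
            rw [Real.rpow_def_of_pos hx0, ← Real.exp_add]
            congr 1
            ring
    have h8 : (A.card : ℝ) ≤ 2 * Real.exp (d / 2) * (x : ℝ) ^ (2 / 3 + ε) := by
      refine hsum.trans ?_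
      calc 2 * (x : ℝ) ^ (2 / 3 + 2 * d / 3) * (∑ q ∈ Q, wt d q) ^ K ≤
          2 * (x : ℝ) ^ (2 / 3 + 2 * d / 3) * (Real.exp (d / 2) * (x : ℝ) ^ d) :=
            mul_le_mul_of_nonneg_left hpow (by positivity)
        _ = 2 * Real.exp (d / 2) * ((x : ℝ) ^ (2 / 3 + 2 * d / 3) * (x : ℝ) ^ d) := by ring
        _ = 2 * Real.exp (d / 2) * (x : ℝ) ^ (2 / 3 + 2 * d / 3 + d) := by
            rw [Real.rpow_add hx0 (2 / 3 + 2 * d / 3) d]
        _ ≤ 2 * Real.exp (d / 2) * (x : ℝ) ^ (2 / 3 + ε) := by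
            refine mul_le_mul_of_nonneg_left ?_ (by positivity)
            exact Real.rpow_le_rpow_of_exponent_le hxR (by linarith)
    refine h8.trans (mul_le_mul_of_nonneg_right (le_max_left _ _) (by positivity))

end Pool.Agent.H12.SP
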