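import Pool.Agent.H74.SP.CAB
import Pool.Agent.H13.SP.CNT
import Pool.Agent.H58.SP.FIN
import Pool.Agent.H59.SP.ORD
import Pool.Agent.H59.SP.SEL
import Pool.Agent.H74.SP.WB
import Pool.Agent.H85.SP2.PAIR
import Pool.Agent.H85.SP2.SIG
import Pool.Agent.H12.SP.RNK

/-!
# MP_634266_nt: assembly
-/

set_option autoImplicit false

namespace Pool.Agent.H12.SP

theorem t_FIN : T_FIN :=
  Pool.Agent.H58.SP.pf_fin
    (Pool.Agent.H85.SP2.pf_pair Pool.Agent.H59.SP.pf_ord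
      (Pool.Agent.H85.SP2.pf_sig Pool.Agent.H59.SP.pf_ord))
    Pool.Agent.H59.SP.pf_sel
    (Pool.Agent.H74.SP.pf_ca Pool.Agent.H13.SP.pf_cnt)
    (Pool.Agent.H74.SP.pf_cb Pool.Agent.H13.SP.pf_cnt)
    (pf_rnk Pool.Agent.H13.SP.pf_cnt)

theorem t_WB : T_WB := Pool.Agent.H74.SP.pf_wb Pool.Agent.H59.SP.pf_ord

end Pool.Agent.H12.SP
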