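import Mathlib

/-!
# MP_634266_nt: odd numbers as a squarefree number plus a power of two

Definitions and targets of the modules (board sp2_modules).
-/

set_option autoImplicit false

namespace Pool.Agent.H12.SP

open Finset

/-- the order of `2` modulo `p` -/
noncomputable def od (p : ℕ) : ℕ := orderOf (2 : ZMod p)

/-- Wieferich primes -/
def Wief (p : ℕ) : Prop := p.Prime ∧ p ^ 2 ∣ 2 ^ (p - 1) - 1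

/-- the exponents `l` with `2 ^ l < n` -/
def LL (n : ℕ) : Finset ℕ := (range n).filter fun l => 2 ^ l < n

/-- every prime whose square divides `k` is a Wieferich prime `p` with `2 ^ (ord_p 2) ≤ n` -/
def Nice (n k : ℕ) : Prop := ∀ p : ℕ, p.Prime → p ^ 2 ∣ k → Wief p ∧ 2 ^ od p ≤ n

/-- the exponents `l` for which `n - 2 ^ l` is nice -/
noncomputable def GG (n : ℕ) : Finset ℕ := by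
  classical exact (LL n).filter fun l => Nice n (n - 2 ^ l)

/-- the exceptional odd numbers: for less than a quarter of the exponents `n - 2 ^ l` is nice -/
noncomputable def EX (x : ℕ) : Finset ℕ := by
  classical exact (range (x + 1)).filter fun n => Odd n ∧ 4 * (GG n).card < (LL n).card

/-- lower bound for the large primes -/
def yy (x : ℕ) : ℕ := Nat.log 2 x / 100

/-- (ORD) orders of `2` -/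
def T_ORD : Prop :=
  (∀ p : ℕ, p.Prime → p ≠ 2 → 0 < od p ∧ p < 2 ^ od p) ∧
  (∀ p : ℕ, p.Prime → p ≠ 2 → ∀ a b : ℕ, a < b → p ∣ 2 ^ b - 2 ^ a → od p ∣ b - a) ∧
  (∀ p : ℕ, p.Prime → p ≠ 2 → ¬ Wief p → ∀ a b : ℕ, a < b → p ^ 2 ∣ 2 ^ b - 2 ^ a →
    p * od p ∣ b - a)

/-- (SIG) the sum of `1 / (p ord_p(2))` -/
def T_SIG : Prop := ∀ P : Finset ℕ, (∀ p ∈ P, p.Prime ∧ p ≠ 2) →
  ∑ p ∈ P, (1 : ℝ) / (p * od p) ≤ 71 / 100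

/-- (PAIR) an exceptional number gives many pairs `(l, p)` with `p ^ 2 ∣ n - 2 ^ l`,
`p > yy x` -/
def T_PAIR : Prop := ∃ x₀ : ℕ, ∀ x n : ℕ, x₀ ≤ x → n ∈ EX x → x ^ 2 ≤ n ^ 3 →
  ∃ (S : Finset ℕ) (p : ℕ → ℕ), yy x ≤ S.card ∧ (∀ l ∈ S, ∀ l' ∈ S, p l = p l' → l = l') ∧
    ∀ l ∈ S, 2 ^ l < n ∧ (p l).Prime ∧ p l ≠ 2 ∧ yy x < p l ∧ p l ^ 2 ∣ n - 2 ^ l

/-- (SEL) selection of a subproduct -/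
def T_SEL : Prop := ∀ (x : ℕ) (S : Finset ℕ) (q : ℕ → ℕ), 1 ≤ x → (∀ l ∈ S, 2 ≤ q l) →
  x ^ 2 ≤ ∏ l ∈ S, q l ^ 2 →
  (∃ l ∈ S, x ≤ q l ^ 3) ∨
  (∃ l ∈ S, ∃ l' ∈ S, l ≠ l' ∧ q l ^ 3 < x ∧ q l' ^ 3 < x ∧ x ≤ (q l * q l') ^ 2) ∨
  ∃ T ⊆ S, x ^ 2 ≤ (∏ l ∈ T, q l ^ 2) ^ 3 ∧ ∏ l ∈ T, q l ^ 2 ≤ x

/-- `n` lies in the residue classes given by `T` and `p` -/
def Hit (T : Finset ℕ) (p : ℕ → ℕ) (n : ℕ) : Prop :=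
  ∀ l ∈ T, 2 ^ l < n ∧ p l ^ 2 ∣ n - 2 ^ l

/-- (CNT) counting -/
def T_CNT : Prop := ∀ (x : ℕ) (T : Finset ℕ) (p : ℕ → ℕ), (∀ l ∈ T, (p l).Prime) →
  (∀ l ∈ T, ∀ l' ∈ T, p l = p l' → l = l') → ∀ A : Finset ℕ,
  (∀ n ∈ A, n ≤ x ∧ Hit T p n) → (A.card : ℝ) ≤ x / (∏ l ∈ T, (p l : ℝ) ^ 2) + 1

/-- (CA) one large prime -/
def T_CA : Prop := ∃ C : ℝ, ∀ x : ℕ, 1 ≤ x → ∀ A : Finset ℕ,
  (∀ n ∈ A, n ≤ x ∧ ∃ l p : ℕ, 2 ^ l < n ∧ p.Prime ∧ x ≤ p ^ 3 ∧ p ^ 2 ∣ n - 2 ^ l) →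
  (A.card : ℝ) ≤ C * (1 + Real.log x) * (x : ℝ) ^ (2 / 3 : ℝ)

/-- (CB) two primes -/
def T_CB : Prop := ∃ C : ℝ, ∀ x : ℕ, 1 ≤ x → ∀ A : Finset ℕ,
  (∀ n ∈ A, n ≤ x ∧ ∃ l l' p p' : ℕ, l ≠ l' ∧ p ≠ p' ∧ p.Prime ∧ p'.Prime ∧ 2 ^ l < n ∧
    2 ^ l' < n ∧ p ^ 3 < x ∧ p' ^ 3 < x ∧ x ≤ (p * p') ^ 2 ∧ p ^ 2 ∣ n - 2 ^ l ∧
    p' ^ 2 ∣ n - 2 ^ l') →
  (A.card : ℝ) ≤ C * (1 + Real.log x) ^ 2 * (x : ℝ) ^ (2 / 3 : ℝ)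

/-- (RNK) many primes -/
def T_RNK : Prop := ∀ ε : ℝ, 0 < ε → ∃ C : ℝ, ∀ x : ℕ, 1 ≤ x → ∀ A : Finset ℕ,
  (∀ n ∈ A, n ≤ x ∧ ∃ (T : Finset ℕ) (p : ℕ → ℕ), (∀ l ∈ T, (p l).Prime ∧ yy x < p l) ∧
    (∀ l ∈ T, ∀ l' ∈ T, p l = p l' → l = l') ∧ Hit T p n ∧
    x ^ 2 ≤ (∏ l ∈ T, p l ^ 2) ^ 3 ∧ ∏ l ∈ T, p l ^ 2 ≤ x) →
  (A.card : ℝ) ≤ C * (x : ℝ) ^ (2 / 3 + ε)

/-- (FIN) the theorem -/
def T_FIN : Prop := ∀ ε : ℝ, 0 < ε → ∃ C : ℝ, ∀ x : ℕ, 1 ≤ x →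
  ((EX x).card : ℝ) ≤ C * (x : ℝ) ^ (2 / 3 + ε)

/-- (WB) if the sum of `1 / ord_p(2)` over the Wieferich primes is small then almost all odd
numbers are the sum of a squarefree number and a power of `2` -/
def T_WB : Prop := (∀ P : Finset ℕ, (∀ p ∈ P, Wief p) → ∑ p ∈ P, (1 : ℝ) / od p ≤ 1 / 9) →
  ∀ (x : ℕ) (A : Finset ℕ), (∀ n ∈ A, n ≤ x ∧ 1 < n ∧ Odd n ∧
    ¬ ∃ k l : ℕ, Squarefree k ∧ n = k + 2 ^ l) → A ⊆ EX x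

end Pool.Agent.H12.SP
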